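import Pool.Agent.Helper44_Art.Stmt2
import Pool.Agent.Helper44_Art.Api

/-! # UNC: the unconditional version of Theorem U -/

set_option autoImplicit false

namespace Art.H42

theorem unc_aux (hP : ProdStmt) (hDi : DihStmt) (hB : Base1Stmt) {T : Type} (N : CoxeterMatrix T)
    (a b c : T) (hab : a ≠ b) (hac : a ≠ c) (hbc : b ≠ c) (hall : ∀ x, x = a ∨ x = b ∨ x = c)
    (h0 : N.M a b ≠ 0) (h1 : N.M a c = 2) (h2 : N.M b c = 2) : RF (Gp N) := by
  apply hP N {a, b} {c}
  · ext x
    simp only [Set.mem_union, Set.mem_insert_iff, Set.mem_singleton_iff, Set.mem_univ, iff_true]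
    rcases hall x with h | h | h
    · exact Or.inl (Or.inl h)
    · exact Or.inl (Or.inr h)
    · exact Or.inr h
  · ext x
    simp only [Set.mem_inter_iff, Set.mem_insert_iff, Set.mem_singleton_iff,
      Set.mem_empty_iff_false, iff_false, not_and]
    rintro (rfl | rfl)
    · exact hac
    · exact hbc
  · intro x hx y hy
    rw [Set.mem_singleton_iff] at hy
    subst hy
    rcases hx with rfl | hx
    · exact h1
    · rw [Set.mem_singleton_iff] at hx
      subst hx
      exact h2
  · have ha : a ∈ ({a, b} : Set T) := Set.mem_insert _ _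
    have hb : b ∈ ({a, b} : Set T) := Set.mem_insert_of_mem _ rfl
    apply hDi (res N {a, b}) ⟨a, ha⟩ ⟨b, hb⟩
    · intro h
      exact hab (congrArg Subtype.val h)
    · rintro ⟨x, hx | hx⟩
      · exact Or.inl (Subtype.ext hx)
      · exact Or.inr (Subtype.ext hx)
    · exact h0
  · apply hB (res N {c})
    refine ⟨?_⟩
    rintro ⟨x, hx⟩ ⟨y, hy⟩
    rw [Set.mem_singleton_iff] at hx hy
    exact Subtype.ext (hx.trans hy.symm)

theorem unc (hU : UStmt) (hP : ProdStmt) (hDi : DihStmt) (hB : Base1Stmt) : UncStmt := by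
  intro S _ M hD h2
  have key : ∀ x y z : S, x ≠ y → x ≠ z → y ≠ z → M.M x y ≠ 0 → M.M x z ≠ 0 →
      M.M y z ≠ 0 → M.M x y = 2 ∨ (M.M x z = 2 ∧ M.M y z = 2) := fun x y z hxy hxz hyz =>
    hD x (Set.mem_univ _) y (Set.mem_univ _) z (Set.mem_univ _) hxy hxz hyz
  apply hU M _ h2
  · -- H3
    intro T _ N j hj hN hcard hne
    classical
    obtain ⟨a, b, c, hab, hac, hbc, huniv⟩ := Finset.card_eq_three.1
      (show (Finset.univ : Finset T).card = 3 from hcard)
    have hall : ∀ x, x = a ∨ x = b ∨ x = c := by
      intro x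
      have : x ∈ (Finset.univ : Finset T) := Finset.mem_univ _
      rw [huniv] at this
      simpa using this
    have hkey : ∀ x y z : T, x ≠ y → x ≠ z → y ≠ z →
        N.M x y = 2 ∨ (N.M x z = 2 ∧ N.M y z = 2) := by
      intro x y z hxy hxz hyz
      rw [hN, hN, hN]
      refine key _ _ _ (hj.ne hxy) (hj.ne hxz) (hj.ne hyz) ?_ ?_ ?_
      · rw [← hN]
        exact hne _ _
      · rw [← hN]
        exact hne _ _
      · rw [← hN]
        exact hne _ _
    rcases hkey a b c hab hac hbc with h | ⟨h, h'⟩
    · rcases hkey a c b hac hab hbc.symm with h' | ⟨-, h'⟩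
      · -- `a` commutes with `b` and `c`
        apply unc_aux hP hDi hB N b c a hbc hab.symm hac.symm _ (hne _ _)
        · rw [N.symmetric]
          exact h
        · rw [N.symmetric]
          exact h'
        · intro x
          rcases hall x with h | h | h
          · exact Or.inr (Or.inr h)
          · exact Or.inl h
          · exact Or.inr (Or.inl h)
      · -- `b` commutes with `a` and `c`
        apply unc_aux hP hDi hB N a c b hac hab hbc.symm _ (hne _ _) h h'
        intro x
        rcases hall x with h | h | h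
        · exact Or.inl h
        · exact Or.inr (Or.inr h)
        · exact Or.inr (Or.inl h)
    · exact unc_aux hP hDi hB N a b c hab hac hbc hall (hne _ _) h h'
  · -- H1
    intro s x y z _ _ _ hxy hxz hyz _ _ _ h1 h2 h3
    rcases key x y z hxy hxz hyz h1 h2 h3 with h | h
    · exact Or.inl h
    · exact Or.inr h.1

end Art.H42
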