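import Pool.Agent.Helper44_Art.Stmt2
import Pool.Agent.Helper44_Art.Api

/-! # VR2: standard parabolic subgroups of local dihedral type are virtual retracts -/

set_option autoImplicit false

namespace Art.H42

theorem vr2 (hF : Fin2Stmt) (hL : LettStmt) (hW : WinStmt) (hV : VrwStmt) : VR2Stmt := by
  intro S _ M S0 hD hG Φ hΦ
  classical
  obtain ⟨P⟩ := hF M
  let a : S → Gp (res M S0) := fun s => if h : s ∈ S0 then gen (res M S0) ⟨s, h⟩ else 1
  have ha : ∀ (s : S) (h : s ∈ S0), a s = gen (res M S0) ⟨s, h⟩ := fun s h => dif_pos h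
  have hrel : ∀ x ∈ S0, ∀ y ∈ S0, M.M x y ≠ 0 →
      alt (M.M x y) (a x) (a y) = alt (M.M x y) (a y) (a x) := by
    intro x hx y hy hxy
    rw [ha x hx, ha y hy]
    exact relHolds (res M S0) ⟨x, hx⟩ ⟨y, hy⟩ hxy
  obtain ⟨ν, hν⟩ := hL M S0 P a hrel
  have hwin := hW M S0 P a ν hD hG hrel hν
  have hpow : ∀ s t, M.M s t ≠ 0 → (P.f s * P.f t) ^ M.M s t = 1 := by
    intro s t hst
    by_cases h : s = t
    · subst h
      rw [P.sq, one_pow]
    · rw [← P.ord s t h hst]
      exact pow_orderOf_eq_one _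
  refine hV M P.f (blocked M S0 P.f) ν P.sq hpow hwin Φ S0 (fun x => gen (res M S0) x)
    (closure_gen _) hΦ ?_ ?_
  · intro x
    refine ⟨x.1, x.2, x.1, x.2, ?_, 0, ?_⟩
    · rw [M.diagonal]
      exact one_ne_zero
    · rw [ref, pow_zero, one_mul]
  · intro x
    rw [hν.one x.1 x.2, ha x.1 x.2]

end Art.H42
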